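import Pool.Agent.Helper98.HQ.Spec

/-!
# HQ: assembly
-/

set_option autoImplicit false

open MeasureTheory Filter Topology
open scoped ENNReal NNReal

namespace Pool.Agent.Helper98.HQ

theorem seq_fix (β : ℝ) (hβ : 0 < β) (e : ℕ → ℝ) (he : Tendsto e atTop (𝓝[>] 0)) :
    ∃ e' : ℕ → ℝ, (∀ j, 0 < e' j ∧ e' j < 1 / β) ∧ Tendsto e' atTop (𝓝 0) ∧
      ∀ᶠ j in atTop, e' j = e j := by
  classical
  have h0 : Tendsto e atTop (𝓝 0) := he.mono_right nhdsWithin_le_nhds
  have h1 : ∀ᶠ j in atTop, 0 < e j := by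
    have := he.eventually (self_mem_nhdsWithin (a := (0 : ℝ)) (s := Set.Ioi 0))
    exact this
  have h2 : ∀ᶠ j in atTop, e j < 1 / β := h0.eventually (gt_mem_nhds (by positivity))
  have h3 : ∀ᶠ j in atTop, 0 < e j ∧ e j < 1 / β := h1.and h2
  have h4 : ∀ᶠ j in atTop, (if 0 < e j ∧ e j < 1 / β then e j else 1 / (2 * β)) = e j := by
    filter_upwards [h3] with j hj
    rw [if_pos hj]
  refine ⟨fun j => if 0 < e j ∧ e j < 1 / β then e j else 1 / (2 * β), ?_, ?_, h4⟩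
  · intro j
    dsimp only
    split_ifs with hj
    · exact hj
    · refine ⟨by positivity, ?_⟩
      apply one_div_lt_one_div_of_lt hβ
      linarith
  · exact (tendsto_congr' h4).2 h0

theorem asm (hLIMS : S_LIMS) (hLIMS0 : S_LIMS0) (hMEANB : S_MEANB) (hRED1 : S_RED1)
    (hRED2 : S_RED2) (hRED3 : S_RED3) (hPSYS : S_PSYS) (hEXI : S_EXI) (hUNQ : S_UNQ)
    (hFORM : S_FORM) (k : ℕ) (hk : 1 ≤ k) (μT μS : Measure ℝ) (hsys : Sys k μT μS) (β : ℝ)
    (hβ : 0 < β) :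
    (∃! π, IsStat k μT μS π) ∧
    (∀ ε, 0 < ε → ε < 1 / β → ∃! π, IsStat k μT (pert β ε μS) π) ∧
    ∀ (π : Measure (Fin k → ℝ)) (πe : ℝ → Measure (Fin k → ℝ)), IsStat k μT μS π →
      (∀ ε, 0 < ε → ε < 1 / β → IsStat k μT (pert β ε μS) (πe ε)) → ∀ i : Fin k,
        Integrable (fun w : Fin k → ℝ => w i) π ∧
        (∀ ε, 0 < ε → ε < 1 / β → Integrable (fun w : Fin k → ℝ => w i) (πe ε)) ∧
        Tendsto (fun ε => ∫ w, w i ∂(πe ε) - ∫ w, w i ∂π) (𝓝[>] 0)
          (𝓝 (lval k ((∫ s, s ∂μS) / (k * ∫ t, t ∂μT)) (∫ t, t ∂μT) (∫ s, s ^ 2 ∂μS) β i)) := by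
  have hbe : ∀ ε : ℝ, ε < 1 / β → β * ε < 1 := by
    intro ε h
    rw [lt_div_iff₀ hβ] at h
    linarith
  refine ⟨?_, ?_, ?_⟩
  · obtain ⟨π, hπ⟩ := hEXI k μT μS hk hsys
    exact ⟨π, hπ, fun π' h' => hUNQ k μT μS π' π hk hsys h' hπ⟩
  · intro ε h0 h1
    have hs := (hPSYS k μT μS β ε hsys hβ h0 (hbe ε h1)).1
    obtain ⟨π, hπ⟩ := hEXI k μT _ hk hs
    exact ⟨π, hπ, fun π' h' => hUNQ k μT _ π' π hk hs h' hπ⟩
  · intro π πe hπ hπe i
    obtain ⟨m, rfl⟩ : ∃ m, k = m + 1 := ⟨k - 1, by omega⟩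
    obtain ⟨hinp, hA, hB, hE⟩ := hRED1 _ μT μS hsys
    have hst0 := hRED2 _ μT μS π hsys hπ
    refine ⟨?_, ?_, ?_⟩
    · exact (hMEANB m _ 0 1 1 π hinp le_rfl zero_le_one zero_le_one zero_le_one (by norm_num)
        hst0).1 i
    · intro ε h0 h1
      have hst := hRED3 _ μT μS β ε (πe ε) hsys hβ h0 (hbe ε h1) (hπe ε h0 h1)
      have hp0 : 0 ≤ pp ε := by unfold pp; positivity
      have hp1 : pp ε ≤ 1 := by
        unfold pp
        rw [div_le_one (by positivity)]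
        linarith
      refine (hMEANB m _ (pp ε) (1 - β * ε) (1 + β / ε) (πe ε) hinp hp0 hp1 ?_ (by positivity) ?_
        hst).1 i
      · linarith [hbe ε h1]
      · unfold pp
        field_simp
        ring
    · rw [tendsto_iff_seq_tendsto]
      intro e he
      obtain ⟨e', h1, h2, h3⟩ := seq_fix β hβ e he
      have hfam : Fam m (μT.prod μS) β e' (fun j => πe (e' j)) π := by
        refine ⟨hinp, hβ, fun j => ⟨(h1 j).1, hbe _ (h1 j).2⟩, h2, fun j => ?_, hst0⟩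
        exact hRED3 _ μT μS β (e' j) _ hsys hβ (h1 j).1 (hbe _ (h1 j).2)
          (hπe _ (h1 j).1 (h1 j).2)
      have hgoal : Tendsto (fun j => ∫ w, w i ∂(πe (e' j)) - ∫ w, w i ∂π) atTop
          (𝓝 (lval (m + 1) ((∫ s, s ∂μS) / ((m + 1 : ℕ) * ∫ t, t ∂μT)) (∫ t, t ∂μT)
            (∫ s, s ^ 2 ∂μS) β i)) := by
        have hst := hsys.stab
        push_cast at hst ⊢
        obtain ⟨hf1, hf2⟩ := hFORM m (∫ t, t ∂μT) (∫ s, s ∂μS) (∫ s, s ^ 2 ∂μS) β hsys.Tpos
          hsys.Spos hst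
        rcases Nat.eq_zero_or_pos m with hm | hm
        · subst hm
          have hi : i = 0 := by
            apply Fin.ext
            have := i.2
            simp only [Fin.val_zero]
            omega
          subst hi
          have h4 := hLIMS0 _ β e' _ π hfam
          rw [hA, hB, hE] at h4
          have h5 := hf2 rfl
          have h6 : lval (0 + 1) ((∫ s, s ∂μS) / (((0 : ℕ) + 1) * ∫ t, t ∂μT)) (∫ t, t ∂μT)
              (∫ s, s ^ 2 ∂μS) β ((0 : Fin (0 + 1)) : ℕ) =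
              β ^ 2 * (∫ s, s ^ 2 ∂μS) / (2 * (∫ t, t ∂μT - ∫ s, s ∂μS)) := by
            rw [← h5]
            norm_num
          rw [h6]
          exact h4
        · obtain ⟨h4, h5⟩ := hLIMS m _ β e' _ π hm hfam
          rw [hA, hB, hE] at h5
          obtain ⟨h6, h7⟩ := hf1 hm
          by_cases hi : i = Fin.last m
          · subst hi
            rw [Fin.val_last, h7]
            exact h5
          · have h8 := h4 i hi
            rw [hA, hB, hE] at h8
            rw [h6 i (Fin.val_lt_last hi)]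
            exact h8
      refine hgoal.congr' ?_
      filter_upwards [h3] with j hj
      simp only [Function.comp_apply, hj]

end Pool.Agent.Helper98.HQ
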