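import Mathlib

/-!
# HQ: rare huge services in GI/GI/k (MP_1ece5f_pr): definitions
-/

set_option autoImplicit false

open MeasureTheory Filter Topology
open scoped ENNReal NNReal

namespace Pool.Agent.Helper98.HQ

/-- The nondecreasing rearrangement of a vector. -/
noncomputable def srt {k : ℕ} (x : Fin k → ℝ) : Fin k → ℝ := x ∘ Tuple.sort x

/-- One step of the Kiefer–Wolfowitz recursion: service `s`, interarrival time `t`. -/
noncomputable def kw {k : ℕ} (w : Fin k → ℝ) (s t : ℝ) : Fin k → ℝ :=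
  srt (fun i => max (w i + (if (i : ℕ) = 0 then s else 0) - t) 0)

/-- Admissible workload vectors. -/
def Adm {k : ℕ} (w : Fin k → ℝ) : Prop := Monotone w ∧ ∀ i, 0 ≤ w i

/-- `π` is a stationary distribution of the workload chain with interarrival law `μT` and service
law `μS`. -/
structure IsStat (k : ℕ) (μT μS : Measure ℝ) (π : Measure (Fin k → ℝ)) : Prop where
  prob : IsProbabilityMeasure π
  adm : ∀ᵐ w ∂π, Adm w
  stat : (π.prod (μT.prod μS)).map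
    (fun x : (Fin k → ℝ) × ℝ × ℝ => kw x.1 x.2.2 x.2.1) = π

/-- The perturbed service law. -/
noncomputable def pert (β ε : ℝ) (μS : Measure ℝ) : Measure ℝ :=
  ENNReal.ofReal (1 / (1 + ε ^ 2)) • μS.map (fun s => s * (1 - β * ε)) +
    ENNReal.ofReal (ε ^ 2 / (1 + ε ^ 2)) • μS.map (fun s => s * (1 + β / ε))

/-- The assumptions of the problem. -/
structure Sys (k : ℕ) (μT μS : Measure ℝ) : Prop where
  pT : IsProbabilityMeasure μT
  pS : IsProbabilityMeasure μS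
  T0 : ∀ᵐ t ∂μT, 0 ≤ t
  S0 : ∀ᵐ s ∂μS, 0 ≤ s
  T2 : Integrable (fun t : ℝ => t ^ 2) μT
  S2 : Integrable (fun s : ℝ => s ^ 2) μS
  Tpos : 0 < ∫ t, t ∂μT
  Spos : 0 < ∫ s, s ∂μS
  stab : ∫ s, s ∂μS < k * ∫ t, t ∂μT

/-! ## Inputs `u = (t, s)` -/

/-- One step with input `u = (t, s)`, services multiplied by `c`; negative inputs are cut off. -/
noncomputable def stp {k : ℕ} (c : ℝ) (w : Fin k → ℝ) (u : ℝ × ℝ) : Fin k → ℝ :=
  kw w (c * max u.2 0) (max u.1 0)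

/-- The transition operator. -/
noncomputable def op {k : ℕ} (ν : Measure (ℝ × ℝ)) (c : ℝ) (h : (Fin k → ℝ) → ℝ≥0∞) :
    (Fin k → ℝ) → ℝ≥0∞ :=
  fun w => ∫⁻ u, h (stp c w u) ∂ν

/-- The transition operator of two chains with the same inputs. -/
noncomputable def opp {k : ℕ} (ν : Measure (ℝ × ℝ)) (h : (Fin k → ℝ) × (Fin k → ℝ) → ℝ≥0∞) :
    (Fin k → ℝ) × (Fin k → ℝ) → ℝ≥0∞ :=
  fun z => ∫⁻ u, h (stp 1 z.1 u, stp 1 z.2 u) ∂ν

open Classical in
/-- Indicator of `x ≠ y`. -/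
noncomputable def neq {k : ℕ} (z : (Fin k → ℝ) × (Fin k → ℝ)) : ℝ≥0∞ := if z.1 = z.2 then 0 else 1

/-- The path with inputs `ω` and multipliers `c`. -/
noncomputable def pth {k : ℕ} (c : ℕ → ℝ) (w : Fin k → ℝ) (ω : ℕ → ℝ × ℝ) : ℕ → (Fin k → ℝ)
  | 0 => w
  | n + 1 => stp (c n) (pth c w ω n) (ω n)

/-- Assumptions on the law of one input `(t, s)`. -/
structure Inp (k : ℕ) (ν : Measure (ℝ × ℝ)) : Prop where
  prob : IsProbabilityMeasure ν
  nn : ∀ᵐ u ∂ν, 0 ≤ u.1 ∧ 0 ≤ u.2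
  T2 : Integrable (fun u : ℝ × ℝ => u.1 ^ 2) ν
  S2 : Integrable (fun u : ℝ × ℝ => u.2 ^ 2) ν
  Tpos : 0 < ∫ u, u.1 ∂ν
  Spos : 0 < ∫ u, u.2 ∂ν
  stab : ∫ u, u.2 ∂ν < k * ∫ u, u.1 ∂ν

/-- `π` is stationary for the chain which multiplies the service by `b` with probability `p` and
by `a` with probability `1 - p`. -/
structure St (k : ℕ) (ν : Measure (ℝ × ℝ)) (p a b : ℝ) (π : Measure (Fin k → ℝ)) : Prop where
  prob : IsProbabilityMeasure π
  adm : ∀ᵐ w ∂π, Adm w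
  inv : ∀ h : (Fin k → ℝ) → ℝ≥0∞, Measurable h →
    ∫⁻ w, h w ∂π = ENNReal.ofReal (1 - p) * ∫⁻ w, op ν a h w ∂π +
      ENNReal.ofReal p * ∫⁻ w, op ν b h w ∂π

/-- `P(huge)` -/
noncomputable def pp (e : ℝ) : ℝ := e ^ 2 / (1 + e ^ 2)

/-- The sum of the squares of the negative parts. -/
noncomputable def nsq {k : ℕ} (c : ℝ) (w : Fin k → ℝ) (u : ℝ × ℝ) : ℝ :=
  ∑ i : Fin k, (min (w i + (if (i : ℕ) = 0 then c * max u.2 0 else 0) - max u.1 0) 0) ^ 2

noncomputable def Psi {k : ℕ} (ν : Measure (ℝ × ℝ)) (c : ℝ) (π : Measure (Fin k → ℝ)) : ℝ :=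
  ∫ w, ∫ u, nsq c w u ∂ν ∂π

/-- `φ` is `Λ`-Lipschitz for the `ℓ¹` distance. -/
def Lip {k : ℕ} (L : ℝ) (φ : (Fin k → ℝ) → ℝ≥0∞) : Prop :=
  ∀ x y, φ x ≤ φ y + ENNReal.ofReal (L * ∑ i, |x i - y i|)

/-! ## Two vectors of `m + 1` servers -/

/-- The sum of all but the last workload. -/
noncomputable def lsum {m : ℕ} (w : Fin (m + 1) → ℝ) : ℝ := (∑ i, w i) - w (Fin.last m)

/-- All but the last workload are within `M` of the first. -/
def Low {m : ℕ} (M : ℝ) (w : Fin (m + 1) → ℝ) : Prop := ∀ i, i ≠ Fin.last m → w i - w 0 ≤ M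

/-- The maximum of the services `1, …, n`. -/
noncomputable def MX (ω : ℕ → ℝ × ℝ) : ℕ → ℝ
  | 0 => 0
  | n + 1 => max (MX ω n) (ω (n + 1)).2

/-- Lindley recursion for the lower servers. -/
noncomputable def UU (m : ℕ) (a : ℝ) (ω : ℕ → ℝ × ℝ) : ℕ → ℝ
  | 0 => 0
  | n + 1 => max (UU m a ω n + a * (ω (n + 1)).2 - m * (ω (n + 1)).1) 0

/-- Lower bound for the first workload. -/
noncomputable def F1 (m : ℕ) (a b : ℝ) (ω : ℕ → ℝ × ℝ) (n : ℕ) : ℝ :=
  min ((∑ j ∈ Finset.Icc 1 n, (a * (ω j).2 - m * (ω j).1)) / m)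
    ((b * (ω 0).2 - (ω 0).1 + ∑ j ∈ Finset.Icc 1 n, (a * (ω j).2 - (m + 1) * (ω j).1)) / (m + 1)) -
      MX ω n

/-- Lower bound for the difference of the last and the first workload. -/
noncomputable def F2 (m : ℕ) (a b : ℝ) (ω : ℕ → ℝ × ℝ) (n : ℕ) : ℝ :=
  b * (ω 0).2 - ∑ j ∈ Finset.range (n + 1), (ω j).1 - MX ω n - UU m a ω n / m

/-- The multipliers: `b` in the first step, `a` afterwards. -/
noncomputable def cc (a b : ℝ) (j : ℕ) : ℝ := if j = 0 then b else a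

/-- Fluid limit of the first workload at time `x` (`A = E T`, `B = E S`, `y = β S`). -/
noncomputable def g1 (m : ℕ) (A B x y : ℝ) : ℝ :=
  min (x * (B - m * A) / m) ((y - x * ((m + 1) * A - B)) / (m + 1))

/-- Fluid limit of the difference of the last and the first workload. -/
noncomputable def g2 (m : ℕ) (A B x y : ℝ) : ℝ := y - x * (A + max (B - m * A) 0 / m)

end Pool.Agent.Helper98.HQ
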