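import Pool.Agent.Helper98.HQ.Defs

/-!
# HQ: statements of the parts (MP_1ece5f_pr)

Deliver `theorem main (dependencies as hypotheses) : S_XXX` in
`Pool/Agent/<You>/HQ/<PART>.lean`.  Blueprint: `team-store get HQ_BLUEPRINT.md`.
-/

set_option autoImplicit false

open MeasureTheory Filter Topology
open scoped ENNReal NNReal

namespace Pool.Agent.Helper98.HQ

/-! ## A. Sorting and one step (deterministic) -/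

/-- SRT: properties of the rearrangement. -/
def S_SRT : Prop := ∀ (k : ℕ) (x y : Fin k → ℝ),
  Monotone (srt x) ∧ (∀ f : ℝ → ℝ, ∑ i, f (srt x i) = ∑ i, f (x i)) ∧
  ((∀ i, x i ≤ y i) → ∀ i, srt x i ≤ srt y i) ∧ (Monotone x → srt x = x) ∧
  (∀ σ : Equiv.Perm (Fin k), srt (x ∘ σ) = srt x) ∧
  (∑ i, |srt x i - srt y i| ≤ ∑ i, |x i - y i|)

/-- KWB: one step preserves admissibility, is monotone and nonexpansive. -/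
def S_KWB : Prop := ∀ (k : ℕ) (w w' : Fin k → ℝ) (s s' t : ℝ),
  Adm (kw w s t) ∧ ((∀ i, w i ≤ w' i) → s ≤ s' → ∀ i, kw w s t i ≤ kw w' s' t i) ∧
  (∑ i, |kw w s t i - kw w' s' t i| ≤ ∑ i, |w i - w' i| + |s - s'|)

/-- KWM: continuity and measurability. -/
def S_KWM : Prop :=
  (∀ k : ℕ, Continuous (fun x : (Fin k → ℝ) × ℝ × ℝ => kw x.1 x.2.2 x.2.1)) ∧
  (∀ (k : ℕ) (c : ℝ), Measurable (fun x : (Fin k → ℝ) × ℝ × ℝ => stp c x.1 x.2)) ∧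
  (∀ (k : ℕ) (ν : Measure (ℝ × ℝ)) (c : ℝ) (h : (Fin k → ℝ) → ℝ≥0∞), IsProbabilityMeasure ν →
    Measurable h → ∀ n : ℕ, Measurable ((op ν c)^[n] h)) ∧
  (∀ (k : ℕ) (ν : Measure (ℝ × ℝ)), IsProbabilityMeasure ν →
    ∀ n : ℕ, Measurable ((opp (k := k) ν)^[n] neq)) ∧
  (∀ (k : ℕ) (c : ℕ → ℝ) (n : ℕ),
    Measurable (fun x : (Fin k → ℝ) × (ℕ → ℝ × ℝ) => pth c x.1 x.2 n))

/-- SQ: the sum of the squares after one step. -/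
def S_SQ : Prop := ∀ (m : ℕ) (c : ℝ) (w : Fin (m + 1) → ℝ) (u : ℝ × ℝ),
  ∑ i, (stp c w u i) ^ 2 + nsq c w u =
    ∑ i, w i ^ 2 + 2 * w 0 * (c * max u.2 0) + (c * max u.2 0) ^ 2 - 2 * max u.1 0 * ∑ i, w i -
      2 * max u.1 0 * (c * max u.2 0) + (m + 1) * (max u.1 0) ^ 2

/-- SPR: the spread. -/
def S_SPR : Prop := ∀ (m : ℕ) (w : Fin (m + 1) → ℝ) (s t M : ℝ), Adm w → 0 ≤ s → s ≤ M → 0 ≤ t →
  w (Fin.last m) - w 0 ≤ M → kw w s t (Fin.last m) - kw w s t 0 ≤ M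

/-- LOWS: the lower `m` servers. -/
def S_LOWS : Prop := ∀ (m : ℕ) (w : Fin (m + 1) → ℝ) (s t M : ℝ), 1 ≤ m → Adm w → 0 ≤ s → s ≤ M →
  0 ≤ t → Low M w → Low M (kw w s t) ∧ lsum (kw w s t) ≤ max (lsum w + s - m * t) (m * M)

/-- LSL: lower bound for the sum of the lower servers when the last one is not joined. -/
def S_LSL : Prop := ∀ (m : ℕ) (w : Fin (m + 1) → ℝ) (s t : ℝ), 1 ≤ m → Adm w → 0 ≤ s → 0 ≤ t →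
  s ≤ w (Fin.last m) - w 0 → lsum w + s - m * t ≤ lsum (kw w s t)

/-- TOP: the last server and the sums. -/
def S_TOP : Prop := ∀ (m : ℕ) (w : Fin (m + 1) → ℝ) (s t : ℝ), Adm w → 0 ≤ s → 0 ≤ t →
  w (Fin.last m) - t ≤ kw w s t (Fin.last m) ∧ w 0 + s - t ≤ kw w s t (Fin.last m) ∧
  ∑ i, w i + s - (m + 1) * t ≤ ∑ i, kw w s t i ∧ lsum (kw w s t) ≤ ∑ i, w i

/-- PF1 (from KWB, SPR, LOWS, LSL, TOP): lower bound for the first workload. -/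
def S_PF1 : Prop := ∀ (m : ℕ) (a b : ℝ) (w : Fin (m + 1) → ℝ) (ω : ℕ → ℝ × ℝ) (n : ℕ), 1 ≤ m →
  0 ≤ a → a ≤ 1 → 0 ≤ b → Adm w → (∀ j, 0 ≤ (ω j).1 ∧ 0 ≤ (ω j).2) →
    F1 m a b ω n ≤ pth (cc a b) w ω (n + 1) 0

/-- PF2 (from KWB, LOWS, TOP): lower bound for the difference of the last and the first. -/
def S_PF2 : Prop := ∀ (m : ℕ) (a b : ℝ) (w : Fin (m + 1) → ℝ) (ω : ℕ → ℝ × ℝ) (n : ℕ), 1 ≤ m →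
  0 ≤ a → a ≤ 1 → 0 ≤ b → Adm w → (∀ j, 0 ≤ (ω j).1 ∧ 0 ≤ (ω j).2) →
    F2 m a b ω n - 2 * ∑ i, w i ≤
      pth (cc a b) w ω (n + 1) (Fin.last m) - pth (cc a b) w ω (n + 1) 0

/-- IDLE (from SRT, KWB): with inputs `s ≤ s0`, `t0 ≤ t`, `s0 < k t0` the first server is idle
from some step on. -/
def S_IDLE : Prop := ∀ (k : ℕ) (s0 t0 R : ℝ), 1 ≤ k → 0 ≤ s0 → 0 < t0 → s0 < k * t0 → 0 ≤ R →
  ∃ n : ℕ, ∀ (ω : ℕ → ℝ × ℝ), (∀ j, 0 ≤ (ω j).2 ∧ (ω j).2 ≤ s0 ∧ t0 ≤ (ω j).1) →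
    ∀ x : Fin k → ℝ, Adm x → (∀ i, x i ≤ R) → ∀ j, n ≤ j →
      (∀ i : Fin k, (i : ℕ) = 0 → pth (fun _ => 1) x ω j i = 0) ∧
      (∀ i, pth (fun _ => 1) x ω j i ≤ s0)

open Classical in
/-- CNT (from SRT): counting functions in steps with an idle first server. -/
def S_CNT : Prop := ∀ (k : ℕ) (x y : Fin k → ℝ), 1 ≤ k → Adm x → Adm y →
  ((∀ u : ℝ, 0 ≤ u → (Finset.univ.filter fun i => u < x i).card =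
    (Finset.univ.filter fun i => u < y i).card) → x = y) ∧
  ∀ (s t c : ℝ), 0 ≤ s → 0 ≤ t → 0 ≤ c → (∀ i : Fin k, (i : ℕ) = 0 → x i = 0 ∧ y i = 0) →
    (∀ u : ℝ, c ≤ u → (Finset.univ.filter fun i => u < x i).card =
      (Finset.univ.filter fun i => u < y i).card) →
    ∀ u : ℝ, max (c - t) 0 ≤ u → (Finset.univ.filter fun i => u < kw x s t i).card =
      (Finset.univ.filter fun i => u < kw y s t i).card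

/-- FORCE (from IDLE, CNT): forced coalescence. -/
def S_FORCE : Prop := ∀ (k : ℕ) (s0 t0 R : ℝ), 1 ≤ k → 0 ≤ s0 → 0 < t0 → s0 < k * t0 → 0 ≤ R →
  ∃ n : ℕ, ∀ (ω : ℕ → ℝ × ℝ), (∀ j, 0 ≤ (ω j).2 ∧ (ω j).2 ≤ s0 ∧ t0 ≤ (ω j).1) →
    ∀ x y : Fin k → ℝ, Adm x → Adm y → (∀ i, x i ≤ R) → (∀ i, y i ≤ R) →
      pth (fun _ => 1) x ω n = pth (fun _ => 1) y ω n

/-! ## B. Moments of stationary distributions -/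

/-- GEN: the mean of the drift. -/
def S_GEN : Prop := ∀ (k : ℕ) (ν : Measure (ℝ × ℝ)) (p a b C : ℝ) (π : Measure (Fin k → ℝ))
  (f g : (Fin k → ℝ) → ℝ≥0∞), IsProbabilityMeasure ν → 0 ≤ p → p ≤ 1 → 0 ≤ C →
  St k ν p a b π → Measurable f → Measurable g → (∀ w, f w ≠ ∞) →
  (∀ᵐ w ∂π, ENNReal.ofReal (1 - p) * op ν a f w + ENNReal.ofReal p * op ν b f w + g w ≤
    f w + ENNReal.ofReal C) → ∫⁻ w, g w ∂π ≤ ENNReal.ofReal C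

/-- MEANB (from GEN, SQ, KWM): finite means. -/
def S_MEANB : Prop := ∀ (m : ℕ) (ν : Measure (ℝ × ℝ)) (p a b : ℝ)
  (π : Measure (Fin (m + 1) → ℝ)), Inp (m + 1) ν → 0 ≤ p → p ≤ 1 → 0 ≤ a → 0 ≤ b →
  (1 - p) * a + p * b = 1 → St (m + 1) ν p a b π →
    (∀ i, Integrable (fun w : Fin (m + 1) → ℝ => w i) π) ∧
    2 * (∫ u, u.1 ∂ν - (∫ u, u.2 ∂ν) / (m + 1)) * ∑ i, ∫ w, w i ∂π ≤
      ((1 - p) * a ^ 2 + p * b ^ 2) * (∫ u, u.2 ^ 2 ∂ν) + (m + 1) * ∫ u, u.1 ^ 2 ∂ν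

/-- ID (from MEANB, SQ, KWM): the second moment identity. -/
def S_ID : Prop := ∀ (m : ℕ) (ν : Measure (ℝ × ℝ)) (p a b : ℝ)
  (π : Measure (Fin (m + 1) → ℝ)), Inp (m + 1) ν → 0 ≤ p → p ≤ 1 → 0 ≤ a → 0 ≤ b →
  (1 - p) * a + p * b = 1 → St (m + 1) ν p a b π →
    2 * ((∫ u, u.1 ∂ν) * ∑ i, ∫ w, w i ∂π - (∫ u, u.2 ∂ν) * ∫ w, w 0 ∂π) =
      ((1 - p) * a ^ 2 + p * b ^ 2) * (∫ u, u.2 ^ 2 ∂ν) - 2 * (∫ u, u.1 * u.2 ∂ν) +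
        (m + 1) * (∫ u, u.1 ^ 2 ∂ν) - ((1 - p) * Psi ν a π + p * Psi ν b π)

/-! ## C. Convergence of the stationary distributions -/

/-- LIPP (from KWB, KWM): the operator preserves bounded Lipschitz functions. -/
def S_LIPP : Prop := ∀ (k : ℕ) (ν : Measure (ℝ × ℝ)) (L : ℝ) (φ : (Fin k → ℝ) → ℝ≥0∞),
  IsProbabilityMeasure ν → 0 ≤ L → Measurable φ → (∀ x, φ x ≤ 1) → Lip L φ → ∀ n : ℕ,
    Measurable ((op ν 1)^[n] φ) ∧ (∀ x, (op ν 1)^[n] φ x ≤ 1) ∧ Lip L ((op ν 1)^[n] φ)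

/-- CPL (from KWM): coupling. -/
def S_CPL : Prop := ∀ (k : ℕ) (ν : Measure (ℝ × ℝ)) (φ : (Fin k → ℝ) → ℝ≥0∞) (n : ℕ)
  (x y : Fin k → ℝ), IsProbabilityMeasure ν → Measurable φ → (∀ x, φ x ≤ 1) →
    (op ν 1)^[n] φ x ≤ (op ν 1)^[n] φ y + (opp ν)^[n] neq (x, y)

/-- PERT (from KWB, KWM): one step of the perturbed chain. -/
def S_PERT : Prop := ∀ (k : ℕ) (ν : Measure (ℝ × ℝ)) (p a b L : ℝ) (π : Measure (Fin k → ℝ))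
  (φ : (Fin k → ℝ) → ℝ≥0∞), Inp k ν → 0 ≤ p → p ≤ 1 → 0 ≤ a → a ≤ 1 → 0 ≤ L →
  St k ν p a b π → Measurable φ → (∀ x, φ x ≤ 1) → Lip L φ →
    ∫⁻ w, φ w ∂π ≤ ∫⁻ w, op ν 1 φ w ∂π + ENNReal.ofReal (L * (1 - a) * (∫ u, u.2 ∂ν) + p) ∧
    ∫⁻ w, op ν 1 φ w ∂π ≤ ∫⁻ w, φ w ∂π + ENNReal.ofReal (L * (1 - a) * (∫ u, u.2 ∂ν) + p)

/-- TEL (from PERT, LIPP): `n` steps. -/
def S_TEL : Prop := ∀ (k : ℕ) (ν : Measure (ℝ × ℝ)) (p a b L : ℝ) (π : Measure (Fin k → ℝ))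
  (φ : (Fin k → ℝ) → ℝ≥0∞) (n : ℕ), Inp k ν → 0 ≤ p → p ≤ 1 → 0 ≤ a → a ≤ 1 → 0 ≤ L →
  St k ν p a b π → Measurable φ → (∀ x, φ x ≤ 1) → Lip L φ →
    ∫⁻ w, φ w ∂π ≤ ∫⁻ w, (op ν 1)^[n] φ w ∂π +
      ENNReal.ofReal (n * (L * (1 - a) * (∫ u, u.2 ∂ν) + p)) ∧
    ∫⁻ w, (op ν 1)^[n] φ w ∂π ≤ ∫⁻ w, φ w ∂π +
      ENNReal.ofReal (n * (L * (1 - a) * (∫ u, u.2 ∂ν) + p))

/-- POS: there are constants with `P(S ≤ s0, T ≥ t0) > 0`, `s0 < k t0`. -/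
def S_POS : Prop := ∀ (k : ℕ) (ν : Measure (ℝ × ℝ)), 1 ≤ k → Inp k ν →
  ∃ s0 t0 : ℝ, 0 ≤ s0 ∧ 0 < t0 ∧ s0 < k * t0 ∧
    0 < ν {u : ℝ × ℝ | 0 ≤ u.2 ∧ u.2 ≤ s0 ∧ t0 ≤ u.1}

/-- QF (from FORCE, POS, KWM): coalescence with positive probability. -/
def S_QF : Prop := ∀ (k : ℕ) (ν : Measure (ℝ × ℝ)) (R : ℝ), 1 ≤ k → Inp k ν → 0 ≤ R →
  ∃ (n : ℕ) (θ : ℝ), 0 < θ ∧ θ ≤ 1 ∧ ∀ x y : Fin k → ℝ, Adm x → Adm y → (∀ i, x i ≤ R) →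
    (∀ i, y i ≤ R) → (opp ν)^[n] neq (x, y) ≤ ENNReal.ofReal (1 - θ)

/-- DRIFT (from SQ, KWB, KWM): Cesàro means of the workload. -/
def S_DRIFT : Prop := ∀ (m : ℕ) (ν : Measure (ℝ × ℝ)), Inp (m + 1) ν →
  ∃ c C : ℝ, 0 < c ∧ 0 ≤ C ∧ ∀ (x : Fin (m + 1) → ℝ) (n : ℕ), Adm x →
    ∑ j ∈ Finset.range n, (op ν 1)^[j] (fun w => ENNReal.ofReal (∑ i, w i)) x ≤
      ENNReal.ofReal ((∑ i, x i ^ 2 + C * n) / c)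

/-- COAL (from QF, DRIFT, KWB, KWM): coalescence. -/
def S_COAL : Prop := ∀ (m : ℕ) (ν : Measure (ℝ × ℝ)) (R δ : ℝ), Inp (m + 1) ν → 0 ≤ R → 0 < δ →
  ∃ n : ℕ, ∀ x : Fin (m + 1) → ℝ, Adm x → (∀ i, x i ≤ R) →
    (opp ν)^[n] neq (0, x) ≤ ENNReal.ofReal δ ∧ (opp ν)^[n] neq (x, 0) ≤ ENNReal.ofReal δ

/-- A family of perturbed stationary distributions. -/
structure Fam (m : ℕ) (ν : Measure (ℝ × ℝ)) (β : ℝ) (e : ℕ → ℝ)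
    (πe : ℕ → Measure (Fin (m + 1) → ℝ)) (π : Measure (Fin (m + 1) → ℝ)) : Prop where
  inp : Inp (m + 1) ν
  β0 : 0 < β
  e0 : ∀ j, 0 < e j ∧ β * e j < 1
  lim : Tendsto e atTop (𝓝 0)
  st : ∀ j, St (m + 1) ν (pp (e j)) (1 - β * e j) (1 + β / e j) (πe j)
  st0 : St (m + 1) ν 0 1 1 π

/-- WEAK (from TEL, CPL, COAL, MEANB, KWM). -/
def S_WEAK : Prop := ∀ (m : ℕ) (ν : Measure (ℝ × ℝ)) (β : ℝ) (e : ℕ → ℝ)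
  (πe : ℕ → Measure (Fin (m + 1) → ℝ)) (π : Measure (Fin (m + 1) → ℝ)), Fam m ν β e πe π →
  ∀ (L : ℝ) (φ : (Fin (m + 1) → ℝ) → ℝ≥0∞), 0 ≤ L → Measurable φ → (∀ x, φ x ≤ 1) → Lip L φ →
    Tendsto (fun j => ∫⁻ w, φ w ∂(πe j)) atTop (𝓝 (∫⁻ w, φ w ∂π))

/-- PSI (from WEAK). -/
def S_PSI : Prop := ∀ (m : ℕ) (ν : Measure (ℝ × ℝ)) (β : ℝ) (e : ℕ → ℝ)
  (πe : ℕ → Measure (Fin (m + 1) → ℝ)) (π : Measure (Fin (m + 1) → ℝ)), Fam m ν β e πe π →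
    Tendsto (fun j => (1 - pp (e j)) * Psi ν (1 - β * e j) (πe j) +
      pp (e j) * Psi ν (1 + β / e j) (πe j)) atTop (𝓝 (Psi ν 1 π))

/-! ## D. Lower bounds -/

/-- DEC (from KWM): decomposition according to the last huge service. -/
def S_DEC : Prop := ∀ (k : ℕ) (ν : Measure (ℝ × ℝ)) (p a b M : ℝ) (π : Measure (Fin k → ℝ))
  (h : (Fin k → ℝ) → ℝ≥0∞) (N : ℕ), IsProbabilityMeasure ν → 0 ≤ p → p ≤ 1 → 0 ≤ M →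
  St k ν p a b π → Measurable h →
    ∫⁻ w, min (h w) (ENNReal.ofReal M) ∂π + ENNReal.ofReal p * ∑ n ∈ Finset.range N,
      ENNReal.ofReal (1 - p) ^ n * ∫⁻ w, op ν b ((op ν a)^[n] h) w ∂π ≤
      ∫⁻ w, h w ∂π + ENNReal.ofReal (M * N * p)

/-- `u` followed by `ω`. -/
def cns (u : ℝ × ℝ) (ω : ℕ → ℝ × ℝ) : ℕ → ℝ × ℝ
  | 0 => u
  | n + 1 => ω n

/-- ISO: the product measure and the shift. -/
def S_ISO : Prop := ∀ ν : Measure (ℝ × ℝ), IsProbabilityMeasure ν →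
  (ν.prod (Measure.infinitePi fun _ : ℕ => ν)).map
    (fun z : (ℝ × ℝ) × (ℕ → ℝ × ℝ) => cns z.1 z.2) = Measure.infinitePi fun _ : ℕ => ν

/-- BR (from ISO, KWM): iterated operators and paths. -/
def S_BR : Prop := ∀ (k : ℕ) (ν : Measure (ℝ × ℝ)) (a b : ℝ) (h : (Fin k → ℝ) → ℝ≥0∞) (n : ℕ)
  (w : Fin k → ℝ), IsProbabilityMeasure ν → Measurable h →
    op ν b ((op ν a)^[n] h) w =
      ∫⁻ ω, h (pth (cc a b) w ω (n + 1)) ∂(Measure.infinitePi fun _ : ℕ => ν)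

/-- Good input sequences. -/
structure Gd (A B : ℝ) (ω : ℕ → ℝ × ℝ) : Prop where
  nn : ∀ j, 0 ≤ (ω j).1 ∧ 0 ≤ (ω j).2
  T : Tendsto (fun n : ℕ => (∑ j ∈ Finset.Icc 1 n, (ω j).1) / n) atTop (𝓝 A)
  S : Tendsto (fun n : ℕ => (∑ j ∈ Finset.Icc 1 n, (ω j).2) / n) atTop (𝓝 B)

/-- SLLN. -/
def S_SLLN : Prop := ∀ (k : ℕ) (ν : Measure (ℝ × ℝ)), Inp k ν →
  ∀ᵐ ω ∂(Measure.infinitePi fun _ : ℕ => ν), Gd (∫ u, u.1 ∂ν) (∫ u, u.2 ∂ν) ω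

/-- MXL. -/
def S_MXL : Prop := ∀ (A B : ℝ) (ω : ℕ → ℝ × ℝ), Gd A B ω →
  Tendsto (fun n : ℕ => MX ω n / n) atTop (𝓝 0)

/-- LIM1 (from MXL): fluid limit of `F1`. -/
def S_LIM1 : Prop := ∀ (m : ℕ) (A B β x : ℝ) (e : ℕ → ℝ) (ω : ℕ → ℝ × ℝ), 1 ≤ m → 0 < β →
  0 < x → (∀ j, 0 < e j) → Tendsto e atTop (𝓝 0) → Gd A B ω →
    Tendsto (fun j => e j * F1 m (1 - β * e j) (1 + β / e j) ω ⌊x / e j⌋₊) atTop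
      (𝓝 (g1 m A B x (β * (ω 0).2)))

/-- LIM2 (from MXL): fluid limit of `F2`. -/
def S_LIM2 : Prop := ∀ (m : ℕ) (A B β x : ℝ) (e : ℕ → ℝ) (ω : ℕ → ℝ × ℝ), 1 ≤ m → 0 < β →
  0 < x → (∀ j, 0 < e j) → Tendsto e atTop (𝓝 0) → Gd A B ω →
    Tendsto (fun j => e j * F2 m (1 - β * e j) (1 + β / e j) ω ⌊x / e j⌋₊) atTop
      (𝓝 (g2 m A B x (β * (ω 0).2)))

/-- The number of steps. -/
noncomputable def NN (e : ℝ) : ℕ := ⌈1 / (e * Real.sqrt e)⌉₊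

/-- FAT: Fatou. -/
def S_FAT : Prop := ∀ (ν : Measure (ℝ × ℝ)) (e : ℕ → ℝ) (G : ℕ → ℕ → (ℕ → ℝ × ℝ) → ℝ)
  (g : ℝ → (ℕ → ℝ × ℝ) → ℝ), IsProbabilityMeasure ν → (∀ j, 0 < e j) → Tendsto e atTop (𝓝 0) →
  (∀ j n, Measurable (G j n)) → Measurable (fun z : ℝ × (ℕ → ℝ × ℝ) => g z.1 z.2) →
  (∀ᵐ ω ∂(Measure.infinitePi fun _ : ℕ => ν), ∀ x : ℝ, 0 < x →
    Tendsto (fun j => e j * G j ⌊x / e j⌋₊ ω) atTop (𝓝 (g x ω))) →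
    ∫⁻ x in Set.Ioi (0 : ℝ), ∫⁻ ω, ENNReal.ofReal (g x ω) ∂(Measure.infinitePi fun _ : ℕ => ν) ≤
      liminf (fun j => ENNReal.ofReal (pp (e j)) * ∑ n ∈ Finset.range (NN (e j)),
        ENNReal.ofReal (1 - pp (e j)) ^ n *
          ∫⁻ ω, ENNReal.ofReal (G j n ω) ∂(Measure.infinitePi fun _ : ℕ => ν)) atTop

/-- The limit for the lower servers. -/
noncomputable def L1v (m : ℕ) (A B E2 β : ℝ) : ℝ :=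
  max (B - m * A) 0 * (β ^ 2 * E2) / (2 * ((m + 1) * A - B) * B)

/-- The limit for the difference of the last and the first server. -/
noncomputable def L2v (m : ℕ) (A B E2 β : ℝ) : ℝ :=
  β ^ 2 * E2 / (2 * (A + max (B - m * A) 0 / m))

/-- AREA1. -/
def S_AREA1 : Prop := ∀ (m : ℕ) (ν : Measure (ℝ × ℝ)) (β : ℝ), 1 ≤ m → Inp (m + 1) ν → 0 < β →
  ENNReal.ofReal (L1v m (∫ u, u.1 ∂ν) (∫ u, u.2 ∂ν) (∫ u, u.2 ^ 2 ∂ν) β) ≤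
    ∫⁻ x in Set.Ioi (0 : ℝ), ∫⁻ ω, ENNReal.ofReal
      (g1 m (∫ u, u.1 ∂ν) (∫ u, u.2 ∂ν) x (β * (ω 0).2)) ∂(Measure.infinitePi fun _ : ℕ => ν)

/-- AREA2. -/
def S_AREA2 : Prop := ∀ (m : ℕ) (ν : Measure (ℝ × ℝ)) (β : ℝ), 1 ≤ m → Inp (m + 1) ν → 0 < β →
  ENNReal.ofReal (L2v m (∫ u, u.1 ∂ν) (∫ u, u.2 ∂ν) (∫ u, u.2 ^ 2 ∂ν) β) ≤
    ∫⁻ x in Set.Ioi (0 : ℝ), ∫⁻ ω, ENNReal.ofReal
      (g2 m (∫ u, u.1 ∂ν) (∫ u, u.2 ∂ν) x (β * (ω 0).2)) ∂(Measure.infinitePi fun _ : ℕ => ν)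

/-- LB (from WEAK, DEC, BR, MEANB, KWM): general lower bound; `G` bounds the paths after a huge
service. -/
def S_LB : Prop := ∀ (m : ℕ) (ν : Measure (ℝ × ℝ)) (β : ℝ) (e : ℕ → ℝ)
  (πe : ℕ → Measure (Fin (m + 1) → ℝ)) (π : Measure (Fin (m + 1) → ℝ)), Fam m ν β e πe π →
  ∀ (h : (Fin (m + 1) → ℝ) → ℝ) (L C lam : ℝ) (G : ℕ → ℕ → (ℕ → ℝ × ℝ) → ℝ), 0 ≤ L → 0 ≤ C →
  0 ≤ lam → Measurable h →
  (∀ x y, |h x - h y| ≤ L * ∑ i, |x i - y i|) → (∀ w, Adm w → 0 ≤ h w) →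
  (∀ w, Adm w → h w ≤ ∑ i, w i) →
  (∀ j n, Measurable (G j n)) →
  (∀ (j n : ℕ) (w : Fin (m + 1) → ℝ) (ω : ℕ → ℝ × ℝ), Adm w → (∀ i, 0 ≤ (ω i).1 ∧ 0 ≤ (ω i).2) →
    G j n ω - C * ∑ i, w i ≤ h (pth (cc (1 - β * e j) (1 + β / e j)) w ω (n + 1))) →
  ENNReal.ofReal lam ≤ liminf (fun j => ENNReal.ofReal (pp (e j)) *
    ∑ n ∈ Finset.range (NN (e j)), ENNReal.ofReal (1 - pp (e j)) ^ n *
      ∫⁻ ω, ENNReal.ofReal (G j n ω) ∂(Measure.infinitePi fun _ : ℕ => ν)) atTop →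
  ∀ δ : ℝ, 0 < δ → ∀ᶠ j in atTop, ∫ w, h w ∂π + lam - δ ≤ ∫ w, h w ∂(πe j)

/-! ## E. Reduction, existence, algebra -/

/-- RED1: the inputs. -/
def S_RED1 : Prop := ∀ (k : ℕ) (μT μS : Measure ℝ), Sys k μT μS → Inp k (μT.prod μS) ∧
  ∫ u, u.1 ∂(μT.prod μS) = ∫ t, t ∂μT ∧ ∫ u, u.2 ∂(μT.prod μS) = ∫ s, s ∂μS ∧
  ∫ u, u.2 ^ 2 ∂(μT.prod μS) = ∫ s, s ^ 2 ∂μS

/-- RED2 (from KWM): the unperturbed chain. -/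
def S_RED2 : Prop := ∀ (k : ℕ) (μT μS : Measure ℝ) (π : Measure (Fin k → ℝ)), Sys k μT μS →
  IsStat k μT μS π → St k (μT.prod μS) 0 1 1 π

/-- RED3 (from KWM): the perturbed chain. -/
def S_RED3 : Prop := ∀ (k : ℕ) (μT μS : Measure ℝ) (β ε : ℝ) (π : Measure (Fin k → ℝ)),
  Sys k μT μS → 0 < β → 0 < ε → β * ε < 1 → IsStat k μT (pert β ε μS) π →
    St k (μT.prod μS) (pp ε) (1 - β * ε) (1 + β / ε) π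

/-- PSYS: the perturbed system satisfies the assumptions; moments of the perturbed service. -/
def S_PSYS : Prop := ∀ (k : ℕ) (μT μS : Measure ℝ) (β ε : ℝ), Sys k μT μS → 0 < β → 0 < ε →
  β * ε < 1 → Sys k μT (pert β ε μS) ∧ ∫ s, s ∂(pert β ε μS) = ∫ s, s ∂μS ∧
    ∫ s, s ^ 2 ∂(pert β ε μS) = (1 + β ^ 2) * ∫ s, s ^ 2 ∂μS

/-- EXI (from SQ, KWB, KWM, ISO, RED1): existence of a stationary distribution (Loynes). -/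
def S_EXI : Prop := ∀ (k : ℕ) (μT μS : Measure ℝ), 1 ≤ k → Sys k μT μS →
  ∃ π : Measure (Fin k → ℝ), IsStat k μT μS π

/-- UNQ (from TEL, CPL, COAL, RED2): uniqueness of the stationary distribution. -/
def S_UNQ : Prop := ∀ (k : ℕ) (μT μS : Measure ℝ) (π π' : Measure (Fin k → ℝ)), 1 ≤ k →
  Sys k μT μS → IsStat k μT μS π → IsStat k μT μS π' → π = π'

/-- LBS (from LB, FAT, LIM1, LIM2, SLLN, AREA1, AREA2, PF1, PF2, KWB): the lower bounds. -/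
def S_LBS : Prop := ∀ (m : ℕ) (ν : Measure (ℝ × ℝ)) (β : ℝ) (e : ℕ → ℝ)
  (πe : ℕ → Measure (Fin (m + 1) → ℝ)) (π : Measure (Fin (m + 1) → ℝ)), 1 ≤ m →
  Fam m ν β e πe π → ∀ δ : ℝ, 0 < δ →
    (∀ᶠ j in atTop, ∫ w, w 0 ∂π + L1v m (∫ u, u.1 ∂ν) (∫ u, u.2 ∂ν) (∫ u, u.2 ^ 2 ∂ν) β - δ ≤
      ∫ w, w 0 ∂(πe j)) ∧
    (∀ i : Fin (m + 1), ∀ᶠ j in atTop, ∫ w, (w i - w 0) ∂π - δ ≤ ∫ w, (w i - w 0) ∂(πe j)) ∧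
    (∀ᶠ j in atTop, ∫ w, (w (Fin.last m) - w 0) ∂π +
      L2v m (∫ u, u.1 ∂ν) (∫ u, u.2 ∂ν) (∫ u, u.2 ^ 2 ∂ν) β - δ ≤
      ∫ w, (w (Fin.last m) - w 0) ∂(πe j))

/-- LIMS (from ID, PSI, MEANB, LBS): the limits for `m + 1 ≥ 2` servers. -/
def S_LIMS : Prop := ∀ (m : ℕ) (ν : Measure (ℝ × ℝ)) (β : ℝ) (e : ℕ → ℝ)
  (πe : ℕ → Measure (Fin (m + 1) → ℝ)) (π : Measure (Fin (m + 1) → ℝ)), 1 ≤ m →
  Fam m ν β e πe π →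
    (∀ i, i ≠ Fin.last m → Tendsto (fun j => ∫ w, w i ∂(πe j) - ∫ w, w i ∂π) atTop
      (𝓝 (L1v m (∫ u, u.1 ∂ν) (∫ u, u.2 ∂ν) (∫ u, u.2 ^ 2 ∂ν) β))) ∧
    Tendsto (fun j => ∫ w, w (Fin.last m) ∂(πe j) - ∫ w, w (Fin.last m) ∂π) atTop
      (𝓝 (L1v m (∫ u, u.1 ∂ν) (∫ u, u.2 ∂ν) (∫ u, u.2 ^ 2 ∂ν) β +
        L2v m (∫ u, u.1 ∂ν) (∫ u, u.2 ∂ν) (∫ u, u.2 ^ 2 ∂ν) β))

/-- LIMS0 (from ID, PSI, MEANB): one server. -/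
def S_LIMS0 : Prop := ∀ (ν : Measure (ℝ × ℝ)) (β : ℝ) (e : ℕ → ℝ)
  (πe : ℕ → Measure (Fin (0 + 1) → ℝ)) (π : Measure (Fin (0 + 1) → ℝ)),
  Fam 0 ν β e πe π → Tendsto (fun j => ∫ w, w 0 ∂(πe j) - ∫ w, w 0 ∂π) atTop
      (𝓝 (β ^ 2 * (∫ u, u.2 ^ 2 ∂ν) / (2 * (∫ u, u.1 ∂ν - ∫ u, u.2 ∂ν))))

/-- The value of the limit in the problem (`i` is the 0-based index). -/
noncomputable def lval (k : ℕ) (ρ A E2 β : ℝ) (i : ℕ) : ℝ :=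
  if i + 1 < k then max (1 - k * (1 - ρ)) 0 / ρ * (β ^ 2 * E2 / (2 * k ^ 2 * (1 - ρ) * A))
  else if ρ ≤ 1 - 1 / k then β ^ 2 * E2 / (2 * A)
  else β ^ 2 * E2 / (2 * A) * ((ρ + (1 - ρ) * (k - 1) ^ 2) / (k ^ 2 * ρ * (1 - ρ)))

/-- FORM: the values agree. -/
def S_FORM : Prop := ∀ (m : ℕ) (A B E2 β : ℝ), 0 < A → 0 < B → B < (m + 1) * A →
  (1 ≤ m → (∀ i, i < m → lval (m + 1) (B / ((m + 1) * A)) A E2 β i = L1v m A B E2 β) ∧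
    lval (m + 1) (B / ((m + 1) * A)) A E2 β m = L1v m A B E2 β + L2v m A B E2 β) ∧
  (m = 0 → lval 1 (B / A) A E2 β 0 = β ^ 2 * E2 / (2 * (A - B)))

end Pool.Agent.Helper98.HQ
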