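import Pool.Agent.Helper98.HQ.Spec

set_option autoImplicit false

open MeasureTheory Filter Topology
open scoped ENNReal NNReal

namespace Pool.Agent.Helper98.HQ.TOP

open Pool.Agent.Helper98.HQ

theorem main : S_TOP := by
  intro m w s t hw hs ht
  set V : Fin (m + 1) → ℝ := fun i => max (w i + (if (i : ℕ) = 0 then s else 0) - t) 0 with hV
  have hkw : kw w s t = V ∘ Tuple.sort V := rfl
  have hmono : Monotone (V ∘ Tuple.sort V) := Tuple.monotone_sort V
  have hle : ∀ i, V i ≤ kw w s t (Fin.last m) := by
    intro i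
    have h1 : V i = (V ∘ Tuple.sort V) ((Tuple.sort V)⁻¹ i) := by simp
    rw [h1, hkw]
    exact hmono (Fin.le_last _)
  have hsum : ∑ i, kw w s t i = ∑ i, V i := by
    rw [hkw]
    exact Equiv.sum_comp (Tuple.sort V) V
  have hlast : w (Fin.last m) - t ≤ V (Fin.last m) := by
    refine le_trans ?_ (le_max_left _ _)
    split_ifs <;> linarith
  have h0 : w 0 + s - t ≤ V 0 := by
    refine le_trans ?_ (le_max_left _ _)
    simp
  refine ⟨hlast.trans (hle _), h0.trans (hle _), ?_, ?_⟩
  · rw [hsum]
    have h1 : ∑ i, (w i + (if (i : ℕ) = 0 then s else 0) - t) ≤ ∑ i, V i :=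
      Finset.sum_le_sum fun i _ => le_max_left _ _
    have h2 : ∑ i : Fin (m + 1), (w i + (if (i : ℕ) = 0 then s else 0) - t) =
        ∑ i, w i + s - (m + 1) * t := by
      rw [Finset.sum_sub_distrib, Finset.sum_add_distrib]
      have h3 : ∑ i : Fin (m + 1), (if (i : ℕ) = 0 then s else 0) = s := by
        rw [Fin.sum_univ_succ]
        simp
      rw [h3]
      simp
    rw [h2] at h1
    exact h1
  · unfold lsum
    rw [hsum]
    have h1 := hle 0
    have h2 : ∑ i, V i - V 0 ≤ ∑ i, w i := by
      rw [Fin.sum_univ_succ, Fin.sum_univ_succ]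
      have h3 : ∀ i : Fin m, V i.succ ≤ w i.succ := by
        intro i
        simp only [hV, Fin.val_succ]
        rw [if_neg (Nat.succ_ne_zero _)]
        refine max_le ?_ (hw.2 _)
        linarith
      have h4 := Finset.sum_le_sum fun (i : Fin m) (_ : i ∈ Finset.univ) => h3 i
      have h5 := hw.2 0
      linarith
    linarith

end Pool.Agent.Helper98.HQ.TOP
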